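import Mathlib

namespace Pool.Agent.H.MP_55c50e_an

open Filter Topology Finset

noncomputable def hat (u : ℝ) : ℝ := max 0 (1 - |u|)

lemma hat_nonneg (u : ℝ) : 0 ≤ hat u := le_max_left _ _

lemma hat_le (u : ℝ) : hat u ≤ 1 := max_le zero_le_one (by have := abs_nonneg u; linarith)

lemma hat_lip (a b : ℝ) : |hat a - hat b| ≤ |a - b| := by
  unfold hat
  have h1 := abs_max_sub_max_le_max (0:ℝ) (1 - |a|) 0 (1 - |b|)
  have h2 : |1 - |a| - (1 - |b|)| ≤ |a - b| := by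
    have : 1 - |a| - (1 - |b|) = -(|a| - |b|) := by ring
    rw [this, abs_neg]
    exact abs_abs_sub_abs_le_abs_sub a b
  refine h1.trans (max_le ?_ h2)
  simp

lemma hat_diff (a b : ℝ) : |hat a - hat b| ≤ min 1 |a - b| := by
  refine le_min ?_ (hat_lip a b)
  have := hat_nonneg a; have := hat_nonneg b; have := hat_le a; have := hat_le b
  rw [abs_le]; constructor <;> linarith

lemma hat_zero (a : ℝ) (m : ℕ) (h1 : m ≠ ⌊a⌋₊) (h2 : m ≠ ⌊a⌋₊ + 1) : hat (a - m) = 0 := by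
  unfold hat
  apply max_eq_left
  by_contra hc
  push Not at hc
  have h3 : |a - m| < 1 := by linarith
  rw [abs_lt] at h3
  rcases lt_or_ge a 0 with ha | ha
  · have : ⌊a⌋₊ = 0 := Nat.floor_eq_zero.2 (by linarith)
    have hm : (m:ℝ) < 1 := by linarith
    have : m < 1 := by exact_mod_cast hm
    omega
  · have h4 := Nat.floor_le ha
    have h5 := Nat.lt_floor_add_one a
    have h6 : (⌊a⌋₊ : ℝ) < m + 1 := by linarith
    have h7 : (m : ℝ) < ⌊a⌋₊ + 2 := by linarith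
    have h6' : ⌊a⌋₊ < m + 1 := by exact_mod_cast h6
    have h7' : m < ⌊a⌋₊ + 2 := by exact_mod_cast h7
    omega

lemma row (p : ℝ) (hp : 0 < p) (a b : ℝ) :
    Summable (fun m : ℕ => |hat (a - m) - hat (b - m)| ^ p) ∧
      ∑' m : ℕ, |hat (a - m) - hat (b - m)| ^ p ≤ 4 * (min 1 |a - b|) ^ p := by
  classical
  set F : Finset ℕ := {⌊a⌋₊, ⌊a⌋₊ + 1, ⌊b⌋₊, ⌊b⌋₊ + 1} with hF
  have hz : ∀ m ∉ F, |hat (a - m) - hat (b - m)| ^ p = 0 := by
    intro m hm
    simp only [hF, mem_insert, mem_singleton, not_or] at hm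
    rw [hat_zero a m hm.1 hm.2.1, hat_zero b m hm.2.2.1 hm.2.2.2]
    simp [Real.zero_rpow hp.ne']
  refine ⟨summable_of_ne_finset_zero hz, ?_⟩
  rw [tsum_eq_sum hz]
  have hb : ∀ m ∈ F, |hat (a - m) - hat (b - m)| ^ p ≤ (min 1 |a - b|) ^ p := by
    intro m _
    apply Real.rpow_le_rpow (abs_nonneg _) _ hp.le
    have := hat_diff (a - m) (b - m)
    rwa [show a - m - (b - m) = a - b by ring] at this
  refine (sum_le_card_nsmul F _ _ hb).trans ?_
  rw [nsmul_eq_mul]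
  apply mul_le_mul_of_nonneg_right _ (Real.rpow_nonneg (le_min zero_le_one (abs_nonneg _)) _)
  have : F.card ≤ 4 := by rw [hF]; exact card_le_four
  exact_mod_cast this

lemma tele (l w : ℝ) (hl : 1 < l) (hw : 0 < w) :
    min w w⁻¹ ≤ 2 * (1 + l) / (l - 1) * (l * w / (1 + l * w) - w / (1 + w)) := by
  have h1 : 0 < l - 1 := by linarith
  have h2 : 0 < 1 + l * w := by positivity
  have h3 : 0 < 1 + w := by positivity
  have e : 2 * (1 + l) / (l - 1) * (l * w / (1 + l * w) - w / (1 + w))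
      = 2 * (1 + l) * w / ((1 + l * w) * (1 + w)) := by
    field_simp
    ring
  rw [e, le_div_iff₀ (by positivity)]
  rcases le_total w 1 with h | h
  · refine (mul_le_mul_of_nonneg_right (min_le_left _ _) (by positivity)).trans ?_
    have : (1 + l * w) * (1 + w) ≤ (1 + l) * 2 :=
      mul_le_mul (by nlinarith) (by linarith) h3.le (by linarith)
    nlinarith
  · refine (mul_le_mul_of_nonneg_right (min_le_right _ _) (by positivity)).trans ?_
    rw [inv_mul_le_iff₀ hw]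
    have : (1 + l * w) * (1 + w) ≤ ((1 + l) * w) * (2 * w) :=
      mul_le_mul (by nlinarith) (by linarith) h3.le (by positivity)
    nlinarith

lemma minpow (p q z : ℝ) (hq : 0 < q) (hq1 : q ≤ 1) (hqp : q ≤ p - 1) (hz : 0 < z) :
    (min 1 z) ^ p ≤ z * min (z ^ q) (z ^ q)⁻¹ := by
  have hw : 0 < z ^ q := Real.rpow_pos_of_pos hz q
  rcases le_total z 1 with h | h
  · rw [min_eq_right h]
    have h1 : z ^ q ≤ 1 := Real.rpow_le_one hz.le h hq.le
    have h2 : z ^ q ≤ (z ^ q)⁻¹ := h1.trans (one_le_inv₀ hw |>.2 h1)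
    rw [min_eq_left h2]
    have : z ^ p = z * z ^ (p - 1) := by
      rw [Real.rpow_sub_one hz.ne']; field_simp
    rw [this]
    exact mul_le_mul_of_nonneg_left (Real.rpow_le_rpow_of_exponent_ge hz h hqp) hz.le
  · rw [min_eq_left h, Real.one_rpow]
    have h1 : 1 ≤ z ^ q := Real.one_le_rpow h hq.le
    have h2 : (z ^ q)⁻¹ ≤ z ^ q := (inv_le_one_of_one_le₀ h1).trans h1
    rw [min_eq_right h2, ← div_eq_mul_inv, le_div_iff₀ hw, one_mul]
    have := Real.rpow_le_rpow_of_exponent_le h hq1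
    rwa [Real.rpow_one] at this

lemma scales (p : ℝ) (hp : 1 < p) : ∃ C : ℝ, 0 ≤ C ∧ ∀ h : ℝ, 0 ≤ h → ∀ N : ℕ,
    ∑ s ∈ range N, (1 / 2 : ℝ) ^ s * (min 1 (2 ^ s * h)) ^ p ≤ C * h := by
  set q := min (p - 1) 1 with hq
  have hq0 : 0 < q := lt_min (by linarith) one_pos
  set l : ℝ := 2 ^ q with hl
  have hl1 : 1 < l := Real.one_lt_rpow (by norm_num) hq0
  have hC : 0 ≤ 2 * (1 + l) / (l - 1) := div_nonneg (by linarith) (by linarith)
  refine ⟨2 * (1 + l) / (l - 1), hC, ?_⟩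
  intro h hh N
  rcases hh.eq_or_lt with rfl | hh
  · simp [Real.zero_rpow (by linarith : p ≠ 0)]
  set w : ℕ → ℝ := fun s => ((2:ℝ) ^ s * h) ^ q with hw
  have hwpos : ∀ s, 0 < w s := fun s => Real.rpow_pos_of_pos (by positivity) q
  have hws : ∀ s, w (s + 1) = l * w s := by
    intro s
    simp only [hw, hl]
    rw [← Real.mul_rpow (by norm_num) (by positivity)]
    congr 1
    ring
  have key : ∀ s ∈ range N, (1 / 2 : ℝ) ^ s * (min 1 (2 ^ s * h)) ^ p ≤
      2 * (1 + l) / (l - 1) * h * (w (s + 1) / (1 + w (s + 1)) - w s / (1 + w s)) := by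
    intro s _
    have h1 := minpow p q (2 ^ s * h) hq0 (min_le_right _ _) (min_le_left _ _) (by positivity)
    have h2 := tele l (w s) hl1 (hwpos s)
    rw [hws s]
    have h3 : (1 / 2 : ℝ) ^ s * (2 ^ s * h) = h := by
      rw [← mul_assoc, ← mul_pow]; simp
    calc (1 / 2 : ℝ) ^ s * (min 1 (2 ^ s * h)) ^ p
        ≤ (1 / 2 : ℝ) ^ s * ((2 ^ s * h) * min (w s) (w s)⁻¹) :=
          mul_le_mul_of_nonneg_left h1 (by positivity)
      _ = h * min (w s) (w s)⁻¹ := by rw [← mul_assoc, h3]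
      _ ≤ h * (2 * (1 + l) / (l - 1) * (l * w s / (1 + l * w s) - w s / (1 + w s))) :=
          mul_le_mul_of_nonneg_left h2 hh.le
      _ = _ := by ring
  refine (sum_le_sum key).trans ?_
  rw [← mul_sum, sum_range_sub (fun s => w s / (1 + w s))]
  have h1 : w N / (1 + w N) ≤ 1 := by
    rw [div_le_one (by have := hwpos N; linarith)]; linarith
  have h2 : 0 ≤ w 0 / (1 + w 0) := by have := hwpos 0; positivity
  have : w N / (1 + w N) - w 0 / (1 + w 0) ≤ 1 := by linarith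
  calc _ ≤ 2 * (1 + l) / (l - 1) * h * 1 := mul_le_mul_of_nonneg_left this (by positivity)
    _ = _ := by ring

noncomputable def X (p t : ℝ) (j : ℕ × ℕ) : ℝ :=
  ((1 / 2 : ℝ) ^ j.1) ^ p⁻¹ * hat (2 ^ j.1 * t - j.2)

lemma X_diff (p : ℝ) (hp : 0 < p) (t u : ℝ) (s m : ℕ) :
    |X p t (s, m) - X p u (s, m)| ^ p =
      (1 / 2 : ℝ) ^ s * |hat (2 ^ s * t - m) - hat (2 ^ s * u - m)| ^ p := by
  unfold X
  rw [← mul_sub, abs_mul, Real.mul_rpow (abs_nonneg _) (abs_nonneg _),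
    abs_of_nonneg (Real.rpow_nonneg (by positivity) _),
    Real.rpow_inv_rpow (by positivity) hp.ne']

lemma holder (p : ℝ) (hp : 1 < p) : ∃ C : ℝ, 0 ≤ C ∧ ∀ t u : ℝ,
    Summable (fun j => |X p t j - X p u j| ^ p) ∧
      ∑' j, |X p t j - X p u j| ^ p ≤ C * |t - u| := by
  obtain ⟨C, hC, H⟩ := scales p hp
  have hp0 : 0 < p := by linarith
  refine ⟨4 * C, by positivity, fun t u => ?_⟩
  have hr : ∀ s : ℕ, Summable (fun m : ℕ => |X p t (s, m) - X p u (s, m)| ^ p) := by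
    intro s
    simp only [X_diff p hp0]
    exact (row p hp0 _ _).1.mul_left _
  have hb : ∀ s : ℕ, ∑' m : ℕ, |X p t (s, m) - X p u (s, m)| ^ p ≤
      4 * ((1 / 2 : ℝ) ^ s * (min 1 (2 ^ s * |t - u|)) ^ p) := by
    intro s
    simp only [X_diff p hp0]
    rw [tsum_mul_left]
    have := (row p hp0 (2 ^ s * t) (2 ^ s * u)).2
    rw [← mul_sub, abs_mul, abs_of_nonneg (by positivity : (0:ℝ) ≤ 2 ^ s)] at this
    calc _ ≤ (1 / 2 : ℝ) ^ s * (4 * (min 1 (2 ^ s * |t - u|)) ^ p) :=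
          mul_le_mul_of_nonneg_left this (by positivity)
      _ = _ := by ring
  have hn : ∀ s : ℕ, 0 ≤ ∑' m : ℕ, |X p t (s, m) - X p u (s, m)| ^ p :=
    fun s => tsum_nonneg fun m => Real.rpow_nonneg (abs_nonneg _) _
  have hN : ∀ N : ℕ, ∑ s ∈ range N, ∑' m : ℕ, |X p t (s, m) - X p u (s, m)| ^ p
      ≤ 4 * C * |t - u| := by
    intro N
    refine (sum_le_sum fun s _ => hb s).trans ?_
    rw [← mul_sum, mul_assoc]
    exact mul_le_mul_of_nonneg_left (H _ (abs_nonneg _) N) (by norm_num)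
  have hs : Summable (fun j => |X p t j - X p u j| ^ p) := by
    rw [summable_prod_of_nonneg (fun j => Real.rpow_nonneg (abs_nonneg _) _)]
    exact ⟨hr, summable_of_sum_range_le hn hN⟩
  refine ⟨hs, ?_⟩
  rw [hs.tsum_prod]
  exact Real.tsum_le_of_sum_range_le hn hN

lemma X_neg (p : ℝ) (j : ℕ × ℕ) : X p (-2) j = 0 := by
  unfold X hat
  rw [max_eq_left, mul_zero]
  have h1 : (1:ℝ) ≤ 2 ^ j.1 := one_le_pow₀ (by norm_num)
  have h2 : (0:ℝ) ≤ j.2 := Nat.cast_nonneg _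
  have : 1 ≤ |(2:ℝ) ^ j.1 * -2 - j.2| := by
    rw [abs_of_nonpos (by nlinarith)]; nlinarith
  linarith

noncomputable def tt (n : ℕ) : ℝ := (Real.log (n + 3))⁻¹

lemma log_ge (n : ℕ) : 1 ≤ Real.log (n + 3) := by
  rw [Real.le_log_iff_exp_le (by positivity)]
  have := Real.exp_one_lt_d9
  have h2 : (0:ℝ) ≤ n := Nat.cast_nonneg _
  linarith

lemma tt_pos (n : ℕ) : 0 < tt n := inv_pos.2 (by have := log_ge n; linarith)

lemma tt_anti : Antitone tt := by
  intro a b hab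
  unfold tt
  apply inv_anti₀ (by have := log_ge a; linarith)
  apply Real.log_le_log (by positivity)
  have : (a:ℝ) ≤ b := by exact_mod_cast hab
  linarith

lemma tt_gap (n : ℕ) : tt n - tt (n + 1) ≤ ((n:ℝ) + 3)⁻¹ := by
  unfold tt
  have h1 := log_ge n
  have h2 := log_ge (n + 1)
  set a := Real.log (n + 3)
  set b := Real.log (((n + 1 : ℕ):ℝ) + 3) with hb
  have h3 : b - a ≤ ((n:ℝ) + 3)⁻¹ := by
    have : b - a = Real.log ((((n + 1 : ℕ):ℝ) + 3) / (n + 3)) := by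
      rw [Real.log_div (by positivity) (by positivity)]
    rw [this]
    refine (Real.log_le_sub_one_of_pos (by positivity)).trans (le_of_eq ?_)
    push_cast
    field_simp
    ring
  have h4 : a⁻¹ - b⁻¹ = (b - a) / (a * b) := by field_simp
  rw [h4, div_le_iff₀ (by positivity)]
  have h5 : 1 ≤ a * b := by nlinarith
  have h6 : 0 < ((n:ℝ) + 3)⁻¹ := by positivity
  nlinarith

lemma tt_lim : Tendsto tt atTop (𝓝 0) := by
  apply Tendsto.inv_tendsto_atTop
  exact Real.tendsto_log_atTop.comp (tendsto_atTop_add_const_right _ 3 tendsto_natCast_atTop_atTop)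

lemma tt_big (s : ℕ) : ((s:ℝ) + 3)⁻¹ ≤ tt (2 ^ (s + 1)) := by
  unfold tt
  apply inv_anti₀ (by have := log_ge (2 ^ (s + 1)); linarith)
  have h1 : (((2 ^ (s + 1) : ℕ):ℝ) + 3) ≤ 2 ^ (s + 3) := by
    push_cast
    have : (1:ℝ) ≤ 2 ^ s := one_le_pow₀ (by norm_num)
    rw [pow_add, pow_add]; nlinarith
  refine (Real.log_le_log (by positivity) h1).trans ?_
  rw [Real.log_pow]
  have := Real.log_two_lt_d9
  push_cast
  have h2 : (0:ℝ) ≤ s := Nat.cast_nonneg _
  nlinarith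

lemma near (N : ℕ) (g a : ℝ) (hg : ((N:ℝ) + 3)⁻¹ ≤ g) (ha : 0 ≤ a) (haN : a ≤ tt N) :
    ∃ n, N ≤ n ∧ |tt n - a| ≤ g := by
  have hg0 : 0 < g := lt_of_lt_of_le (by positivity) hg
  have hex : ∃ k, tt (N + k) ≤ a + g := by
    have := (tt_lim.eventually (ge_mem_nhds (show (0:ℝ) < a + g by linarith)))
    obtain ⟨M, hM⟩ := eventually_atTop.1 this
    exact ⟨M, hM _ (by omega)⟩
  classical
  refine ⟨N + Nat.find hex, by omega, ?_⟩
  have h1 := Nat.find_spec hex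
  rw [abs_le]
  refine ⟨?_, by linarith⟩
  rcases Nat.eq_zero_or_pos (Nat.find hex) with h | h
  · rw [h]; simp only [add_zero]; linarith
  · obtain ⟨k, hk⟩ : ∃ k, Nat.find hex = k + 1 := ⟨Nat.find hex - 1, by omega⟩
    have h2 := Nat.find_min hex (show k < Nat.find hex by omega)
    push Not at h2
    have h3 := tt_gap (N + k)
    have h4 : (((N + k : ℕ):ℝ) + 3)⁻¹ ≤ ((N:ℝ) + 3)⁻¹ := by
      apply inv_anti₀ (by positivity)
      push_cast
      have : (0:ℝ) ≤ k := Nat.cast_nonneg _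
      linarith
    rw [hk, ← add_assoc]
    linarith

lemma unbdd (p : ℝ) (hp : 1 < p) (y : ℕ × ℕ → ℝ) (hy : Summable fun j => |y j| ^ p) (N : ℕ)
    (h : ∀ n, N ≤ n → ∀ j, |X p (tt n) j| ≤ y j) : False := by
  have hp0 : 0 < p := by linarith
  have hy0 : ∀ j, 0 ≤ |y j| ^ p := fun j => Real.rpow_nonneg (abs_nonneg _) _
  obtain ⟨hr, hs⟩ := (summable_prod_of_nonneg hy0).1 hy
  have key : ∀ s : ℕ, N ≤ s → (1 / 2 : ℝ) ^ p * ((s:ℝ) + 3)⁻¹ ≤ ∑' m, |y (s, m)| ^ p := by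
    intro s hs
    set K := ⌊(2:ℝ) ^ s * ((s:ℝ) + 3)⁻¹⌋₊ + 1 with hK
    have h1 : ∀ m ∈ range K, (1 / 2 : ℝ) ^ p * (1 / 2 : ℝ) ^ s ≤ |y (s, m)| ^ p := by
      intro m hm
      have hm1 : (m:ℝ) ≤ (2:ℝ) ^ s * ((s:ℝ) + 3)⁻¹ := by
        have : m ≤ ⌊(2:ℝ) ^ s * ((s:ℝ) + 3)⁻¹⌋₊ := by
          have := mem_range.1 hm; omega
        exact (Nat.le_floor_iff (by positivity)).1 this
      have hpow : (0:ℝ) < 2 ^ s := by positivity
      obtain ⟨n, hn, hn2⟩ := near (2 ^ (s + 1)) ((2:ℝ) ^ (s + 1))⁻¹ (m / 2 ^ s)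
        (by apply inv_anti₀ (by positivity); push_cast; linarith) (by positivity)
        (le_trans (by rw [div_le_iff₀ hpow]; linarith) (tt_big s))
      have hNn : N ≤ n := by
        have := Nat.lt_two_pow_self (n := s + 1)
        omega
      have h2 := h n hNn (s, m)
      have h3 : (1 / 2 : ℝ) ≤ hat (2 ^ s * tt n - m) := by
        refine le_trans ?_ (le_max_right _ _)
        have e : (2:ℝ) ^ s * tt n - m = 2 ^ s * (tt n - m / 2 ^ s) := by field_simp
        rw [e, abs_mul, abs_of_pos hpow]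
        have h4 : (2:ℝ) ^ s * |tt n - m / 2 ^ s| ≤ 2 ^ s * ((2:ℝ) ^ (s + 1))⁻¹ :=
          mul_le_mul_of_nonneg_left hn2 hpow.le
        have h5 : (2:ℝ) ^ s * ((2:ℝ) ^ (s + 1))⁻¹ = 1 / 2 := by
          rw [pow_succ]; field_simp
        linarith
      have h6 := X_diff p hp0 (tt n) (-2) s m
      rw [X_neg, sub_zero] at h6
      have h7 : hat (2 ^ s * (-2) - m) = 0 := by
        have := X_neg p (s, m)
        unfold X at this
        rcases mul_eq_zero.1 this with h | h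
        · exact absurd h (Real.rpow_pos_of_pos (by positivity) _).ne'
        · exact h
      rw [h7, sub_zero, abs_of_nonneg (hat_nonneg _)] at h6
      calc (1 / 2 : ℝ) ^ p * (1 / 2 : ℝ) ^ s
          ≤ hat (2 ^ s * tt n - m) ^ p * (1 / 2 : ℝ) ^ s :=
            mul_le_mul_of_nonneg_right (Real.rpow_le_rpow (by norm_num) h3 hp0.le)
              (by positivity)
        _ = |X p (tt n) (s, m)| ^ p := by rw [h6]; ring
        _ ≤ |y (s, m)| ^ p :=
            Real.rpow_le_rpow (abs_nonneg _) (h2.trans (le_abs_self _)) hp0.le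
    have h2 := card_nsmul_le_sum _ _ _ h1
    rw [card_range, nsmul_eq_mul] at h2
    refine le_trans ?_ (h2.trans ((hr s).sum_le_tsum _ fun m _ => hy0 _))
    have h3 : (2:ℝ) ^ s * ((s:ℝ) + 3)⁻¹ ≤ K := by
      rw [hK]; push_cast; exact (Nat.lt_floor_add_one _).le
    have h4 : (0:ℝ) < (1 / 2 : ℝ) ^ p := Real.rpow_pos_of_pos (by norm_num) _
    have h5 : (2:ℝ) ^ s * (1 / 2 : ℝ) ^ s = 1 := by rw [← mul_pow]; simp
    calc (1 / 2 : ℝ) ^ p * ((s:ℝ) + 3)⁻¹
        = (2:ℝ) ^ s * ((s:ℝ) + 3)⁻¹ * ((1 / 2 : ℝ) ^ p * (1 / 2 : ℝ) ^ s) := by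
          calc _ = (1 / 2 : ℝ) ^ p * ((s:ℝ) + 3)⁻¹ * ((2:ℝ) ^ s * (1 / 2 : ℝ) ^ s) := by
                rw [h5, mul_one]
            _ = _ := by ring
      _ ≤ _ := mul_le_mul_of_nonneg_right h3 (by positivity)
  have h1 : Summable fun s : ℕ => (1 / 2 : ℝ) ^ p * ((((s + N : ℕ)):ℝ) + 3)⁻¹ :=
    Summable.of_nonneg_of_le (fun s => by positivity) (fun s => key (s + N) (by omega))
      ((summable_nat_add_iff N).2 hs)
  have h4 : (0:ℝ) < (1 / 2 : ℝ) ^ p := Real.rpow_pos_of_pos (by norm_num) _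
  rw [summable_mul_left_iff h4.ne'] at h1
  apply Real.not_summable_natCast_inv
  rw [← summable_nat_add_iff (N + 3)]
  refine h1.congr fun s => ?_
  push_cast
  ring

lemma cauchy0 (D : ℕ → ℕ × ℕ → ℝ) (hD : ∀ k j, 0 ≤ D k j) (b : ℕ → ℝ) (hb : Summable b)
    (h1 : ∀ k, Summable (D k)) (h2 : ∀ k, ∑' j, D k j ≤ b k) :
    Summable (fun kj : ℕ × (ℕ × ℕ) => D kj.1 kj.2) := by
  rw [summable_prod_of_nonneg (fun j => hD _ _)]
  exact ⟨h1, Summable.of_nonneg_of_le (fun k => tsum_nonneg fun m => hD _ _) h2 hb⟩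

lemma tele_sum (n : ℕ → ℕ) (hn : StrictMono n) :
    Summable fun k => |tt (n (k + 1)) - tt (n k)| := by
  apply summable_of_sum_range_le (c := tt (n 0)) (fun k => abs_nonneg _)
  intro N
  have : ∀ k ∈ range N, |tt (n (k + 1)) - tt (n k)| = tt (n k) - tt (n (k + 1)) := by
    intro k _
    have := tt_anti (hn.monotone (Nat.le_succ k))
    rw [abs_of_nonpos (by linarith)]; ring
  rw [sum_congr rfl this, sum_range_sub' (fun k => tt (n k))]
  have := tt_pos (n N)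
  linarith

lemma cauchy (p : ℝ) (hp : 1 < p) (n : ℕ → ℕ) (hn : StrictMono n) :
    Summable (fun kj : ℕ × (ℕ × ℕ) =>
      |X p (tt (n (kj.1 + 1))) kj.2 - X p (tt (n kj.1)) kj.2| ^ p) := by
  obtain ⟨C, hC, H⟩ := holder p hp
  exact cauchy0 (fun k j => |X p (tt (n (k + 1))) j - X p (tt (n k)) j| ^ p)
    (fun k j => Real.rpow_nonneg (abs_nonneg _) _)
    (fun k => C * |tt (n (k + 1)) - tt (n k)|) ((tele_sum n hn).mul_left C)
    (fun k => (H (tt (n (k + 1))) (tt (n k))).1) (fun k => (H (tt (n (k + 1))) (tt (n k))).2)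

/-- tails -/
lemma tails {ι : Type} (p : ℝ) (hp : 0 < p) (d : ℕ → ι → ℝ)
    (hd : Summable (fun kj : ℕ × ι => |d kj.1 kj.2| ^ p)) :
    ∃ z : ℕ → ι → ℝ, (∀ m, Summable fun j => |z m j| ^ p) ∧ (∀ m j, 0 ≤ z m j) ∧ Antitone z ∧
      (∀ j, Tendsto (fun m => z m j) atTop (𝓝 0)) ∧ ∀ m k, m ≤ k → ∀ j, |d k j| ≤ z m j := by
  set D : ℕ → ι → ℝ := fun k j => |d k j| ^ p with hD
  have hD0 : ∀ k j, 0 ≤ D k j := fun k j => Real.rpow_nonneg (abs_nonneg _) _
  have hd' : Summable (fun jk : ι × ℕ => D jk.2 jk.1) := hd.prod_symm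
  obtain ⟨h1, h2⟩ := (summable_prod_of_nonneg (fun j => hD0 _ _)).1 hd'
  have h1' : ∀ j, Summable fun k => D k j := h1
  have h2' : Summable fun j => ∑' k, D k j := h2
  set T : ℕ → ι → ℝ := fun m j => ∑' k, D (k + m) j with hT
  have hT0 : ∀ m j, 0 ≤ T m j := fun m j => tsum_nonneg fun k => hD0 _ _
  have hTs : ∀ m j, T m j = D m j + T (m + 1) j := by
    intro m j
    have := ((summable_nat_add_iff m).2 (h1' j)).tsum_eq_zero_add
    simp only [hT]
    rw [this, zero_add]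
    congr 1
    refine tsum_congr fun k => ?_
    congr 1
    ring
  have hA : ∀ j, Antitone fun m => T m j := by
    intro j
    apply antitone_nat_of_succ_le
    intro m
    have := hTs m j
    have := hD0 m j
    linarith
  refine ⟨fun m j => (T m j) ^ p⁻¹, ?_, fun m j => Real.rpow_nonneg (hT0 m j) _, ?_, ?_, ?_⟩
  · intro m
    refine Summable.of_nonneg_of_le (fun j => Real.rpow_nonneg (abs_nonneg _) _) ?_ h2'
    intro j
    rw [abs_of_nonneg (Real.rpow_nonneg (hT0 m j) _), Real.rpow_inv_rpow (hT0 m j) hp.ne']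
    have := hA j (Nat.zero_le m)
    simpa [hT] using this
  · intro a b hab j
    exact Real.rpow_le_rpow (hT0 b j) (hA j hab) (inv_nonneg.2 hp.le)
  · intro j
    have h3 : Tendsto (fun m => T m j) atTop (𝓝 0) := tendsto_sum_nat_add (fun k => D k j)
    have h4 := (Real.continuousAt_rpow_const 0 p⁻¹ (Or.inr (inv_nonneg.2 hp.le))).tendsto.comp h3
    rw [Real.zero_rpow (inv_pos.2 hp).ne'] at h4
    exact h4
  · intro m k hmk j
    have h3 : D k j ≤ T m j := by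
      have := hTs k j
      have := hT0 (k + 1) j
      have := hA j hmk
      simp only at this
      linarith
    have h4 := Real.rpow_le_rpow (hD0 k j) h3 (inv_nonneg.2 hp.le)
    rwa [hD, Real.rpow_rpow_inv (abs_nonneg _) hp.ne'] at h4

lemma lp_add {ι : Type} (p : ℝ) (hp : 0 < p) (a b : ι → ℝ) (ha : Summable fun j => |a j| ^ p)
    (hb : Summable fun j => |b j| ^ p) : Summable fun j => abs (|a j| + |b j|) ^ p := by
  refine Summable.of_nonneg_of_le (fun j => Real.rpow_nonneg (abs_nonneg _) _) ?_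
    ((ha.add hb).mul_left (2 ^ p))
  intro j
  rw [abs_of_nonneg (by positivity)]
  have h1 := Real.rpow_nonneg (abs_nonneg (a j)) p
  have h2 := Real.rpow_nonneg (abs_nonneg (b j)) p
  have h3 : (0:ℝ) < 2 ^ p := by positivity
  rcases le_total |a j| |b j| with h | h
  · calc _ ≤ (2 * |b j|) ^ p := Real.rpow_le_rpow (by positivity) (by linarith) hp.le
      _ = 2 ^ p * |b j| ^ p := Real.mul_rpow (by norm_num) (abs_nonneg _)
      _ ≤ _ := by nlinarith
  · calc _ ≤ (2 * |a j|) ^ p := Real.rpow_le_rpow (by positivity) (by linarith) hp.le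
      _ = 2 ^ p * |a j| ^ p := Real.mul_rpow (by norm_num) (abs_nonneg _)
      _ ≤ _ := by nlinarith

end Pool.Agent.H.MP_55c50e_an
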